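import Mathlib

/-!
The hedgehog (metric star) with `2^𝔠` infinite rays: a length space without `K₅` or `K₃,₃` as
asymptotic minors that is not quasi-isometric to any graph drawn in the plane.
-/

set_option autoImplicit false

open Set

namespace Pool.Agent.J4H82.Hedgehog

/-- index set of the rays, of cardinality `2^𝔠` -/
abbrev Idx : Type := Set (ℝ × ℝ)

/-- points of the hedgehog: ray and distance from the centre; the centre is `(∅, 0)` -/
structure Hog : Type where
  i : Idx
  r : ℝ
  nonneg : 0 ≤ r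
  norm : r = 0 → i = ∅

def idx (p : Hog) : Idx := p.i
def rad (p : Hog) : ℝ := p.r

theorem rad_nonneg (p : Hog) : 0 ≤ rad p := p.nonneg

theorem idx_of_rad_eq_zero {p : Hog} (h : rad p = 0) : idx p = ∅ := p.norm h

theorem hog_ext {p q : Hog} (h1 : idx p = idx q) (h2 : rad p = rad q) : p = q := by
  cases p; cases q
  simp only [idx, rad] at h1 h2
  subst h1 h2
  rfl

open Classical in
noncomputable def hdist (p q : Hog) : ℝ :=
  if idx p = idx q then |rad p - rad q| else rad p + rad q

theorem hdist_same {p q : Hog} (h : idx p = idx q) : hdist p q = |rad p - rad q| := by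
  simp [hdist, h]

theorem hdist_diff {p q : Hog} (h : idx p ≠ idx q) : hdist p q = rad p + rad q := by
  simp [hdist, h]

noncomputable instance : MetricSpace Hog where
  dist := hdist
  dist_self p := by rw [hdist_same rfl]; simp
  dist_comm p q := by
    by_cases h : idx p = idx q
    · rw [hdist_same h, hdist_same h.symm, abs_sub_comm]
    · rw [hdist_diff h, hdist_diff (Ne.symm h), add_comm]
  dist_triangle p q s := by
    have hp := rad_nonneg p
    have hq := rad_nonneg q
    have hs := rad_nonneg s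
    by_cases h1 : idx p = idx q
    · by_cases h2 : idx q = idx s
      · rw [hdist_same h1, hdist_same h2, hdist_same (h1.trans h2)]
        exact abs_sub_le _ _ _
      · have h3 : idx p ≠ idx s := fun h => h2 (h1.symm.trans h)
        rw [hdist_same h1, hdist_diff h2, hdist_diff h3]
        have := le_abs_self (rad p - rad q)
        linarith
    · by_cases h2 : idx q = idx s
      · have h3 : idx p ≠ idx s := fun h => h1 (h.trans h2.symm)
        rw [hdist_diff h1, hdist_same h2, hdist_diff h3]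
        have := neg_le_abs (rad q - rad s)
        linarith
      · rw [hdist_diff h1, hdist_diff h2]
        by_cases h3 : idx p = idx s
        · rw [hdist_same h3]
          rw [abs_le]
          constructor <;> linarith
        · rw [hdist_diff h3]; linarith
  eq_of_dist_eq_zero := by
    intro p q h
    change hdist p q = 0 at h
    have hp := rad_nonneg p
    have hq := rad_nonneg q
    by_cases h1 : idx p = idx q
    · rw [hdist_same h1, abs_eq_zero] at h
      exact hog_ext h1 (by linarith)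
    · rw [hdist_diff h1] at h
      have e1 : rad p = 0 := by linarith
      have e2 : rad q = 0 := by linarith
      exact hog_ext ((idx_of_rad_eq_zero e1).trans (idx_of_rad_eq_zero e2).symm) (e1.trans e2.symm)

theorem dist_same {p q : Hog} (h : idx p = idx q) : dist p q = |rad p - rad q| := hdist_same h

theorem dist_diff {p q : Hog} (h : idx p ≠ idx q) : dist p q = rad p + rad q := hdist_diff h

/-- the centre -/
def o : Hog := ⟨∅, 0, le_refl _, fun _ => rfl⟩

theorem rad_o : rad o = 0 := rfl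

theorem eq_o_of_rad {p : Hog} (h : rad p = 0) : p = o :=
  hog_ext (idx_of_rad_eq_zero h) h

theorem rad_pos {p : Hog} (h : p ≠ o) : 0 < rad p :=
  lt_of_le_of_ne (rad_nonneg p) (fun e => h (eq_o_of_rad e.symm))

theorem dist_o (p : Hog) : dist p o = rad p := by
  by_cases h : idx p = idx o
  · rw [dist_same h, rad_o, sub_zero, abs_of_nonneg (rad_nonneg p)]
  · rw [dist_diff h, rad_o, add_zero]

theorem continuous_rad : Continuous rad := by
  have : rad = fun p => dist p o := funext fun p => (dist_o p).symm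
  rw [this]
  exact continuous_id.dist continuous_const

open Classical in
/-- the point at distance `u` on ray `i` -/
noncomputable def pt (i : Idx) (u : ℝ) : Hog :=
  if h : 0 < u then ⟨i, u, h.le, fun e => absurd e h.ne'⟩ else o

theorem pt_pos (i : Idx) {u : ℝ} (h : 0 < u) : idx (pt i u) = i ∧ rad (pt i u) = u := by
  unfold pt
  rw [dif_pos h]
  exact ⟨rfl, rfl⟩

theorem pt_zero (i : Idx) : pt i 0 = o := by
  unfold pt
  rw [dif_neg (lt_irrefl _)]

theorem pt_eq (p : Hog) : pt (idx p) (rad p) = p := by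
  rcases (rad_nonneg p).lt_or_eq with h | h
  · exact hog_ext (pt_pos _ h).1 (pt_pos _ h).2
  · rw [← h, pt_zero, eq_o_of_rad h.symm]

theorem dist_pt_same (i : Idx) {u v : ℝ} (hu : 0 ≤ u) (hv : 0 ≤ v) :
    dist (pt i u) (pt i v) = |u - v| := by
  rcases hu.lt_or_eq with h | h
  · rcases hv.lt_or_eq with h' | h'
    · rw [dist_same ((pt_pos i h).1.trans (pt_pos i h').1.symm), (pt_pos i h).2, (pt_pos i h').2]
    · rw [← h', pt_zero, dist_o, (pt_pos i h).2, sub_zero, abs_of_pos h]
  · rw [← h, pt_zero, dist_comm, dist_o]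
    rcases hv.lt_or_eq with h' | h'
    · rw [(pt_pos i h').2, zero_sub, abs_neg, abs_of_pos h']
    · rw [← h', pt_zero, rad_o]; simp

theorem dist_pt_le (i j : Idx) {u v : ℝ} (hu : 0 ≤ u) (hv : 0 ≤ v) :
    dist (pt i u) (pt j v) ≤ u + v := by
  have h1 : dist (pt i u) o = u := by
    have := dist_pt_same i hu (le_refl 0)
    rw [pt_zero, sub_zero, abs_of_nonneg hu] at this
    exact this
  have h2 : dist (pt j v) o = v := by
    have := dist_pt_same j hv (le_refl 0)
    rw [pt_zero, sub_zero, abs_of_nonneg hv] at this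
    exact this
  calc dist (pt i u) (pt j v) ≤ dist (pt i u) o + dist o (pt j v) := dist_triangle _ _ _
    _ = u + v := by rw [h1, dist_comm, h2]

theorem dist_pt_diff {i j : Idx} (hij : i ≠ j) {u v : ℝ} (hu : 0 < u) (hv : 0 < v) :
    dist (pt i u) (pt j v) = u + v := by
  rw [dist_diff, (pt_pos i hu).2, (pt_pos j hv).2]
  rw [(pt_pos i hu).1, (pt_pos j hv).1]
  exact hij

open Classical in
/-- the line through the centre along rays `i` and `j` -/
noncomputable def line (i j : Idx) (x : ℝ) : Hog := if x ≤ 0 then pt i (-x) else pt j x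

theorem dist_line (i j : Idx) (x y : ℝ) : dist (line i j x) (line i j y) ≤ |x - y| := by
  unfold line
  by_cases hx : x ≤ 0
  · by_cases hy : y ≤ 0
    · rw [if_pos hx, if_pos hy, dist_pt_same i (by linarith) (by linarith)]
      rw [show -x - -y = -(x - y) by ring, abs_neg]
    · rw [if_pos hx, if_neg hy]
      push Not at hy
      refine (dist_pt_le i j (by linarith) hy.le).trans ?_
      have := neg_le_abs (x - y)
      linarith
  · by_cases hy : y ≤ 0
    · rw [if_neg hx, if_pos hy]
      push Not at hx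
      refine (dist_pt_le j i hx.le (by linarith)).trans ?_
      have := le_abs_self (x - y)
      linarith
    · rw [if_neg hx, if_neg hy]
      push Not at hx hy
      rw [dist_pt_same j hx.le hy.le]

/-- every two points are joined by a curve that is Lipschitz with constant their distance -/
theorem exists_curve (x y : Hog) : ∃ F : ℝ → Hog, F 0 = x ∧ F 1 = y ∧
    ∀ s ∈ Icc (0:ℝ) 1, ∀ t ∈ Icc (0:ℝ) 1, dist (F s) (F t) ≤ dist x y * |s - t| := by
  have hx := rad_nonneg x
  have hy := rad_nonneg y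
  by_cases h : idx x = idx y
  · refine ⟨fun τ => pt (idx x) ((1 - τ) * rad x + τ * rad y), ?_, ?_, ?_⟩
    · simp [pt_eq]
    · simp only [sub_self, zero_mul, one_mul, zero_add]
      rw [h, pt_eq]
    · intro s hs t ht
      rw [dist_pt_same, dist_same h, ← abs_mul]
      · apply le_of_eq
        rw [← abs_neg]
        congr 1
        ring
      · have := mul_nonneg (sub_nonneg.2 hs.2) hx
        have := mul_nonneg hs.1 hy
        linarith
      · have := mul_nonneg (sub_nonneg.2 ht.2) hx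
        have := mul_nonneg ht.1 hy
        linarith
  · refine ⟨fun τ => line (idx x) (idx y) ((1 - τ) * (-rad x) + τ * rad y), ?_, ?_, ?_⟩
    · simp only [sub_zero, one_mul, zero_mul, add_zero]
      unfold line
      rw [if_pos (by linarith), neg_neg, pt_eq]
    · simp only [sub_self, zero_mul, one_mul, zero_add]
      unfold line
      rcases hy.lt_or_eq with h' | h'
      · rw [if_neg (not_le.2 h'), pt_eq]
      · rw [if_pos h'.symm.le, ← h', neg_zero, pt_zero, eq_o_of_rad h'.symm]
    · intro s _ t _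
      refine (dist_line _ _ _ _).trans ?_
      rw [dist_diff h]
      have e : (1 - s) * (-rad x) + s * rad y - ((1 - t) * (-rad x) + t * rad y)
          = (rad x + rad y) * (s - t) := by ring
      rw [e, abs_mul, abs_of_nonneg (by linarith)]

theorem length_space (x y : Hog) (ε : ℝ) (hε : 0 < ε) : ∃ γ : Path x y,
    eVariationOn (fun t : unitInterval => γ t) Set.univ ≤ ENNReal.ofReal (dist x y + ε) := by
  obtain ⟨F, h0, h1, hF⟩ := exists_curve x y
  have hlip : LipschitzOnWith (Real.toNNReal (dist x y)) F (Icc 0 1) := by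
    apply LipschitzOnWith.of_dist_le_mul
    intro s hs t ht
    rw [Real.coe_toNNReal _ dist_nonneg, Real.dist_eq]
    exact hF s hs t ht
  have hcont : Continuous (fun τ : unitInterval => F τ) :=
    hlip.continuousOn.comp_continuous continuous_subtype_val (fun τ => τ.2)
  refine ⟨⟨⟨fun τ => F τ, hcont⟩, by simpa using h0, by simpa using h1⟩, ?_⟩
  change eVariationOn (F ∘ (Subtype.val : unitInterval → ℝ)) Set.univ ≤ _
  have h2 := hlip.comp_eVariationOn_le (g := (Subtype.val : unitInterval → ℝ)) (s := Set.univ)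
    (fun τ _ => τ.2)
  have h3 : eVariationOn (Subtype.val : unitInterval → ℝ) Set.univ ≤ ENNReal.ofReal 1 := by
    have hm : MonotoneOn (Subtype.val : unitInterval → ℝ) Set.univ := fun a _ b _ h => h
    have := (hm.eVariationOn_eq (mem_univ (0 : unitInterval)) (mem_univ (1 : unitInterval))).le
    have e : (Set.univ ∩ Icc (0 : unitInterval) 1) = Set.univ := by
      ext τ
      simp only [mem_inter_iff, mem_univ, true_and, mem_Icc, iff_true]
      exact ⟨unitInterval.nonneg', unitInterval.le_one'⟩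
    rw [e] at this
    simpa using this
  refine h2.trans ?_
  calc (Real.toNNReal (dist x y) : ENNReal) * eVariationOn (Subtype.val : unitInterval → ℝ) Set.univ
      ≤ (Real.toNNReal (dist x y) : ENNReal) * ENNReal.ofReal 1 := by gcongr
    _ = ENNReal.ofReal (dist x y) := by simp [ENNReal.ofReal]
    _ ≤ ENNReal.ofReal (dist x y + ε) := ENNReal.ofReal_le_ofReal (by linarith)

/-! ### Connected sets missing the centre -/

theorem isOpen_ray (i : Idx) : IsOpen {q : Hog | q ≠ o ∧ idx q = i} := by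
  rw [Metric.isOpen_iff]
  intro q hq
  refine ⟨rad q, rad_pos hq.1, ?_⟩
  intro q' hq'
  rw [Metric.mem_ball] at hq'
  constructor
  · rintro rfl
    rw [dist_comm, dist_o] at hq'
    exact lt_irrefl _ hq'
  · by_contra hne
    rw [dist_diff (fun e => hne (e.trans hq.2))] at hq'
    have := rad_nonneg q'
    linarith

theorem isOpen_not_ray (i : Idx) : IsOpen {q : Hog | q ≠ o ∧ idx q ≠ i} := by
  have : {q : Hog | q ≠ o ∧ idx q ≠ i} = ⋃ j ∈ {j : Idx | j ≠ i}, {q : Hog | q ≠ o ∧ idx q = j} := by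
    ext q
    simp only [mem_ofPred_eq, mem_iUnion, exists_prop]
    constructor
    · rintro ⟨h1, h2⟩
      exact ⟨idx q, h2, h1, rfl⟩
    · rintro ⟨j, hj, h1, h2⟩
      exact ⟨h1, h2 ▸ hj⟩
  rw [this]
  exact isOpen_biUnion fun j _ => isOpen_ray j

theorem idx_const {C : Set Hog} (hC : IsPreconnected C) (ho : o ∉ C) {p q : Hog}
    (hp : p ∈ C) (hq : q ∈ C) : idx q = idx p := by
  have key := hC.subset_left_of_subset_union (isOpen_ray (idx p)) (isOpen_not_ray (idx p))
    (by
      rw [Set.disjoint_left]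
      rintro a ⟨_, h1⟩ ⟨_, h2⟩
      exact h2 h1)
    (by
      intro a ha
      have hao : a ≠ o := fun e => ho (e ▸ ha)
      by_cases h : idx a = idx p
      · exact Or.inl ⟨hao, h⟩
      · exact Or.inr ⟨hao, h⟩)
    ⟨p, hp, fun e => ho (e ▸ hp), rfl⟩
  exact (key hq).2

theorem mem_of_between {C : Set Hog} (hC : IsPreconnected C) (ho : o ∉ C) {p q t : Hog}
    (hp : p ∈ C) (hq : q ∈ C) (ht : idx t = idx p) (h1 : rad p ≤ rad t) (h2 : rad t ≤ rad q) :
    t ∈ C := by
  have himg : (rad '' C).OrdConnected :=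
    (hC.image rad continuous_rad.continuousOn).ordConnected
  obtain ⟨c, hc, hct⟩ := himg.out (mem_image_of_mem _ hp) (mem_image_of_mem _ hq) ⟨h1, h2⟩
  have : c = t := hog_ext ((idx_const hC ho hp hc).trans ht.symm) hct
  exact this ▸ hc

/-! ### No cycle of branch sets away from the centre -/

theorem core_aux {V : Type} (B : V → Set Hog) (h1 : ∀ v, IsConnected (B v))
    (h2 : ∀ v v', v ≠ v' → Disjoint (B v) (B v')) (b : V → Hog) (hb : ∀ v, b v ∈ B v)
    {x y z : V} (hxy : x ≠ y) (hyz : y ≠ z)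
    (hox : o ∉ B x) (hoz : o ∉ B z) (Q : Set Hog) (hQ : IsPreconnected Q) (hoQ : o ∉ Q)
    {g0 g1 : Hog} (hg0Q : g0 ∈ Q) (hg1Q : g1 ∈ Q) (hg0 : g0 ∈ B x) (hg1 : g1 ∈ B z)
    (hint : Q ∩ (⋃ v, B v) = {g0, g1})
    (hidx : idx (b y) = idx (b x)) (hlt1 : rad (b x) < rad (b y)) (hlt2 : rad (b y) < rad (b z)) :
    False := by
  have dis : ∀ {u v : V} {p : Hog}, u ≠ v → p ∈ B u → p ∈ B v → False := by
    intro u v p huv hu hv
    exact Set.disjoint_left.1 (h2 u v huv) hu hv
  have i1 : idx g0 = idx (b x) := idx_const (h1 x).isPreconnected hox (hb x) hg0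
  have i2 : idx g1 = idx g0 := idx_const hQ hoQ hg0Q hg1Q
  have i3 : idx (b z) = idx g1 := idx_const (h1 z).isPreconnected hoz hg1 (hb z)
  have l1 : rad g0 < rad (b y) := by
    by_contra hcon
    push Not at hcon
    have := mem_of_between (h1 x).isPreconnected hox (hb x) hg0 hidx hlt1.le hcon
    exact dis hxy this (hb y)
  have l2 : rad (b y) < rad g1 := by
    by_contra hcon
    push Not at hcon
    have := mem_of_between (h1 z).isPreconnected hoz hg1 (hb z)
      (hidx.trans (i1.symm.trans i2.symm)) hcon hlt2.le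
    exact dis hyz (hb y) this
  have hmem : b y ∈ Q :=
    mem_of_between hQ hoQ hg0Q hg1Q (hidx.trans i1.symm) l1.le l2.le
  have : b y ∈ Q ∩ (⋃ v, B v) := ⟨hmem, mem_iUnion.2 ⟨y, hb y⟩⟩
  rw [hint] at this
  rcases this with h | h
  · exact dis hxy (h ▸ hg0) (hb y)
  · rw [mem_singleton_iff] at h
    exact dis hyz (hb y) (h ▸ hg1)

theorem core {V : Type} (Δ : SimpleGraph V) (B : V → Set Hog) (P : V → V → Set Hog)
    (h1 : ∀ v, IsConnected (B v)) (h2 : ∀ v v', v ≠ v' → Disjoint (B v) (B v'))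
    (h3 : ∀ u w, Δ.Adj u w → P u w = P w u ∧
      ∃ g : unitInterval → Hog, Continuous g ∧ Function.Injective g ∧
        Set.range g = P u w ∧ g 0 ∈ B u ∧ g 1 ∈ B w ∧ P u w ∩ (⋃ v, B v) = {g 0, g 1})
    (S : Finset V) (hS : S.Nonempty) (hgood : ∀ v ∈ S, o ∉ B v)
    (hnb : ∀ x ∈ S, ∃ y ∈ S, ∃ z ∈ S, y ≠ z ∧ Δ.Adj x y ∧ Δ.Adj x z ∧ o ∉ P x y ∧ o ∉ P x z) :
    False := by
  choose b hb using fun v => (h1 v).nonempty
  obtain ⟨x, hxS, hmin⟩ := S.exists_min_image (fun v => rad (b v)) hS
  obtain ⟨y, hyS, z, hzS, hyz, axy, axz, oxy, oxz⟩ := hnb x hxS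
  -- arcs
  have arc : ∀ {w : V}, w ∈ S → Δ.Adj x w → o ∉ P x w → idx (b w) = idx (b x) := by
    intro w hw aw ow
    obtain ⟨_, g, gc, gi, gr, g0, g1, _⟩ := h3 x w aw
    have hQ : IsPreconnected (P x w) := by
      rw [← gr]
      exact isPreconnected_range gc
    have m0 : g 0 ∈ P x w := gr ▸ mem_range_self _
    have m1 : g 1 ∈ P x w := gr ▸ mem_range_self _
    have e1 : idx (g 0) = idx (b x) := idx_const (h1 x).isPreconnected (hgood x hxS) (hb x) g0
    have e2 : idx (g 1) = idx (g 0) := idx_const hQ ow m0 m1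
    have e3 : idx (b w) = idx (g 1) :=
      idx_const (h1 w).isPreconnected (hgood w hw) g1 (hb w)
    exact e3.trans (e2.trans e1)
  have iy := arc hyS axy oxy
  have iz := arc hzS axz oxz
  have dis : ∀ {u v : V}, u ≠ v → b u ≠ b v := by
    intro u v huv e
    exact Set.disjoint_left.1 (h2 u v huv) (hb u) (e ▸ hb v)
  have ly : rad (b x) < rad (b y) :=
    lt_of_le_of_ne (hmin y hyS) (fun e => dis axy.ne (hog_ext iy.symm e))
  have lz : rad (b x) < rad (b z) :=
    lt_of_le_of_ne (hmin z hzS) (fun e => dis axz.ne (hog_ext iz.symm e))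
  have lyz : rad (b y) ≠ rad (b z) := fun e => dis hyz (hog_ext (iy.trans iz.symm) e)
  rcases lt_or_gt_of_ne lyz with hlt | hlt
  · obtain ⟨_, g, gc, gi, gr, g0, g1, gint⟩ := h3 x z axz
    have hQ : IsPreconnected (P x z) := by
      rw [← gr]
      exact isPreconnected_range gc
    exact core_aux B h1 h2 b hb axy.ne hyz (hgood x hxS) (hgood z hzS) (P x z) hQ oxz
      (gr ▸ mem_range_self _) (gr ▸ mem_range_self _) g0 g1 gint iy ly hlt
  · obtain ⟨_, g, gc, gi, gr, g0, g1, gint⟩ := h3 x y axy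
    have hQ : IsPreconnected (P x y) := by
      rw [← gr]
      exact isPreconnected_range gc
    exact core_aux B h1 h2 b hb axz.ne hyz.symm (hgood x hxS) (hgood y hyS) (P x y) hQ oxy
      (gr ▸ mem_range_self _) (gr ▸ mem_range_self _) g0 g1 gint iz lz hlt

/-! ### No fat `K₅` or `K₃,₃` minor -/

theorem avoid5 : ∀ (b c d : Fin 5), ∃ x y z : Fin 5, x ≠ y ∧ y ≠ z ∧ x ≠ z ∧
    x ≠ b ∧ y ≠ b ∧ z ≠ b ∧
    ¬ ((x = c ∧ y = d) ∨ (x = d ∧ y = c)) ∧ ¬ ((y = c ∧ z = d) ∨ (y = d ∧ z = c)) ∧
    ¬ ((x = c ∧ z = d) ∨ (x = d ∧ z = c)) := by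
  decide

theorem avoid33 : ∀ (v : Fin 3 ⊕ Fin 3) (a b : Fin 3), ∃ a1 a2 b1 b2 : Fin 3,
    a1 ≠ a2 ∧ b1 ≠ b2 ∧ Sum.inl a1 ≠ v ∧ Sum.inl a2 ≠ v ∧ Sum.inr b1 ≠ v ∧ Sum.inr b2 ≠ v ∧
    ¬ (a1 = a ∧ b1 = b) ∧ ¬ (a1 = a ∧ b2 = b) ∧ ¬ (a2 = a ∧ b1 = b) ∧ ¬ (a2 = a ∧ b2 = b) := by
  decide

theorem no_fat_minor (V : Type) (Δ : SimpleGraph V)
    (hiso : Nonempty (SimpleGraph.Iso Δ (⊤ : SimpleGraph (Fin 5))) ∨
          Nonempty (SimpleGraph.Iso Δ (completeBipartiteGraph (Fin 3) (Fin 3))))
    (B : V → Set Hog) (P : V → V → Set Hog)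
    (h1 : ∀ v, IsConnected (B v)) (h2 : ∀ v v', v ≠ v' → Disjoint (B v) (B v'))
    (h3 : ∀ u w, Δ.Adj u w → P u w = P w u ∧
      ∃ g : unitInterval → Hog, Continuous g ∧ Function.Injective g ∧
        Set.range g = P u w ∧ g 0 ∈ B u ∧ g 1 ∈ B w ∧ P u w ∩ (⋃ v, B v) = {g 0, g 1})
    (h4 : ∀ u w u' w', Δ.Adj u w → Δ.Adj u' w' → s(u, w) ≠ s(u', w') →
      Disjoint (P u w) (P u' w')) : False := by
  classical
  -- the bad vertex and the bad edge
  have hbad : ∀ v₀ : V, ∃ v : V, ∀ u, u ≠ v → o ∉ B u := by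
    intro v₀
    by_cases h : ∃ v, o ∈ B v
    · obtain ⟨v, hv⟩ := h
      exact ⟨v, fun u hu hou => Set.disjoint_left.1 (h2 u v hu) hou hv⟩
    · push Not at h
      exact ⟨v₀, fun u _ => h u⟩
  have hbade : ∀ c₀ d₀ : V, Δ.Adj c₀ d₀ → ∃ c d : V, Δ.Adj c d ∧
      ∀ u w, Δ.Adj u w → s(u, w) ≠ s(c, d) → o ∉ P u w := by
    intro c₀ d₀ h0
    by_cases h : ∃ c d, Δ.Adj c d ∧ o ∈ P c d
    · obtain ⟨c, d, hcd, ho⟩ := h
      exact ⟨c, d, hcd, fun u w huw hne hou => Set.disjoint_left.1 (h4 u w c d huw hcd hne) hou ho⟩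
    · push Not at h
      exact ⟨c₀, d₀, h0, fun u w huw _ => h u w huw⟩
  rcases hiso with ⟨⟨e⟩⟩ | ⟨⟨e⟩⟩
  · have adj : ∀ u w : V, u ≠ w → Δ.Adj u w := by
      intro u w h
      rw [← e.map_adj_iff, SimpleGraph.top_adj]
      exact fun h' => h (e.injective h')
    obtain ⟨v, hv⟩ := hbad (e.symm 0)
    obtain ⟨c, d, _, hcd⟩ := hbade (e.symm 0) (e.symm 1)
      (adj _ _ (fun h => absurd (e.symm.injective h) (by decide)))
    obtain ⟨x, y, z, hxy, hyz, hxz, hxb, hyb, hzb, e1, e2, e3⟩ := avoid5 (e v) (e c) (e d)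
    have inj : ∀ {s t : Fin 5}, s ≠ t → e.symm s ≠ e.symm t := fun h h' => h (e.symm.injective h')
    have nv : ∀ {s : Fin 5}, s ≠ e v → e.symm s ≠ v := fun h h' => h (by rw [← h', e.apply_symm_apply])
    have good : ∀ {s t : Fin 5}, s ≠ t → ¬ ((s = e c ∧ t = e d) ∨ (s = e d ∧ t = e c)) →
        o ∉ P (e.symm s) (e.symm t) := by
      intro s t hst hne
      refine hcd _ _ (adj _ _ (inj hst)) ?_
      intro h
      rw [Sym2.eq_iff] at h
      apply hne
      rcases h with ⟨p, q⟩ | ⟨p, q⟩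
      · left; rw [← p, ← q]; simp
      · right; rw [← p, ← q]; simp
    have sw : ∀ {s t : Fin 5}, s ≠ t → ¬ ((s = e c ∧ t = e d) ∨ (s = e d ∧ t = e c)) →
        o ∉ P (e.symm t) (e.symm s) := by
      intro s t hst hne
      refine good hst.symm ?_
      rintro (⟨p, q⟩ | ⟨p, q⟩)
      · exact hne (Or.inr ⟨q, p⟩)
      · exact hne (Or.inl ⟨q, p⟩)
    refine core Δ B P h1 h2 h3 {e.symm x, e.symm y, e.symm z} ⟨e.symm x, by simp⟩ ?_ ?_
    · intro u hu
      simp only [Finset.mem_insert, Finset.mem_singleton] at hu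
      rcases hu with rfl | rfl | rfl
      · exact hv _ (nv hxb)
      · exact hv _ (nv hyb)
      · exact hv _ (nv hzb)
    · intro u hu
      simp only [Finset.mem_insert, Finset.mem_singleton] at hu
      rcases hu with rfl | rfl | rfl
      · exact ⟨e.symm y, by simp, e.symm z, by simp, inj hyz, adj _ _ (inj hxy), adj _ _ (inj hxz),
          good hxy e1, good hxz e3⟩
      · exact ⟨e.symm x, by simp, e.symm z, by simp, inj hxz, adj _ _ (inj hxy.symm),
          adj _ _ (inj hyz), sw hxy e1, good hyz e2⟩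
      · exact ⟨e.symm x, by simp, e.symm y, by simp, inj hxy, adj _ _ (inj hxz.symm),
          adj _ _ (inj hyz.symm), sw hxz e3, sw hyz e2⟩
  · have adj : ∀ a b : Fin 3, Δ.Adj (e.symm (Sum.inl a)) (e.symm (Sum.inr b)) := by
      intro a b
      rw [← e.map_adj_iff]
      simp
    obtain ⟨v, hv⟩ := hbad (e.symm (Sum.inl 0))
    -- normal form of the bad edge
    have hbade' : ∃ a b : Fin 3, ∀ s t : Fin 3, ¬ (s = a ∧ t = b) →
        o ∉ P (e.symm (Sum.inl s)) (e.symm (Sum.inr t)) := by
      obtain ⟨c, d, hcd, hP⟩ := hbade (e.symm (Sum.inl 0)) (e.symm (Sum.inr 0)) (adj 0 0)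
      have hadj : (completeBipartiteGraph (Fin 3) (Fin 3)).Adj (e c) (e d) := e.map_adj_iff.2 hcd
      rcases hc : e c with a | a <;> rcases hd : e d with b | b <;> rw [hc, hd] at hadj
      · simp at hadj
      · refine ⟨a, b, fun s t hst => hP _ _ (adj s t) ?_⟩
        intro h
        rw [Sym2.eq_iff] at h
        apply hst
        rcases h with ⟨p, q⟩ | ⟨p, q⟩
        · rw [← p] at hc; rw [← q] at hd
          simp at hc hd
          exact ⟨hc, hd⟩
        · rw [← p] at hd
          simp at hd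
      · refine ⟨b, a, fun s t hst => hP _ _ (adj s t) ?_⟩
        intro h
        rw [Sym2.eq_iff] at h
        apply hst
        rcases h with ⟨p, q⟩ | ⟨p, q⟩
        · rw [← p] at hc
          simp at hc
        · rw [← p] at hd; rw [← q] at hc
          simp at hc hd
          exact ⟨hd, hc⟩
      · simp at hadj
    obtain ⟨a, b, hab⟩ := hbade'
    obtain ⟨a1, a2, b1, b2, ha, hb, va1, va2, vb1, vb2, e11, e12, e21, e22⟩ := avoid33 (e v) a b
    have nv : ∀ {s : Fin 3 ⊕ Fin 3}, s ≠ e v → e.symm s ≠ v :=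
      fun h h' => h (by rw [← h', e.apply_symm_apply])
    have inj : ∀ {s t : Fin 3 ⊕ Fin 3}, s ≠ t → e.symm s ≠ e.symm t :=
      fun h h' => h (e.symm.injective h')
    have sw : ∀ {s t : Fin 3}, ¬ (s = a ∧ t = b) →
        o ∉ P (e.symm (Sum.inr t)) (e.symm (Sum.inl s)) := by
      intro s t hst
      rw [← (h3 _ _ (adj s t)).1]
      exact hab s t hst
    have ia : (Sum.inl a1 : Fin 3 ⊕ Fin 3) ≠ Sum.inl a2 := fun h => ha (Sum.inl_injective h)
    have ib : (Sum.inr b1 : Fin 3 ⊕ Fin 3) ≠ Sum.inr b2 := fun h => hb (Sum.inr_injective h)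
    refine core Δ B P h1 h2 h3
      {e.symm (Sum.inl a1), e.symm (Sum.inl a2), e.symm (Sum.inr b1), e.symm (Sum.inr b2)}
      ⟨e.symm (Sum.inl a1), by simp⟩ ?_ ?_
    · intro u hu
      simp only [Finset.mem_insert, Finset.mem_singleton] at hu
      rcases hu with rfl | rfl | rfl | rfl
      · exact hv _ (nv va1)
      · exact hv _ (nv va2)
      · exact hv _ (nv vb1)
      · exact hv _ (nv vb2)
    · intro u hu
      simp only [Finset.mem_insert, Finset.mem_singleton] at hu
      rcases hu with rfl | rfl | rfl | rfl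
      · exact ⟨e.symm (Sum.inr b1), by simp, e.symm (Sum.inr b2), by simp, inj ib, adj _ _, adj _ _,
          hab _ _ e11, hab _ _ e12⟩
      · exact ⟨e.symm (Sum.inr b1), by simp, e.symm (Sum.inr b2), by simp, inj ib, adj _ _, adj _ _,
          hab _ _ e21, hab _ _ e22⟩
      · exact ⟨e.symm (Sum.inl a1), by simp, e.symm (Sum.inl a2), by simp, inj ia, (adj _ _).symm,
          (adj _ _).symm, sw e11, sw e21⟩
      · exact ⟨e.symm (Sum.inl a1), by simp, e.symm (Sum.inl a2), by simp, inj ia, (adj _ _).symm,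
          (adj _ _).symm, sw e12, sw e22⟩

/-! ### No quasi-isometric embedding into a graph with at most continuum many vertices -/

theorem no_planar_qi (W : Type) (G : SimpleGraph W) (wt : Sym2 W → ℝ)
    (hwt : ∀ e ∈ G.edgeSet, 0 ≤ wt e) (φ : W → ℝ × ℝ) (hφ : Function.Injective φ)
    (f : Hog → W) (M A : ℝ) (hM : 1 ≤ M) (hA : 0 ≤ A)
    (hqi : ∀ x y : Hog, M⁻¹ * dist x y - A ≤ (⨅ p : G.Walk (f x) (f y), (p.edges.map wt).sum)) :
    False := by
  have hM0 : 0 < M := by linarith
  have hR : 0 < M * (A + 1) := by positivity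
  have hinj : Function.Injective (fun i : Idx => f (pt i (M * (A + 1)))) := by
    intro i j hij
    by_contra hne
    have hd := dist_pt_diff hne hR hR
    have hq := hqi (pt i (M * (A + 1))) (pt j (M * (A + 1)))
    simp only at hij
    rw [hd] at hq
    have hle : (⨅ p : G.Walk (f (pt i (M * (A + 1)))) (f (pt j (M * (A + 1)))),
        (p.edges.map wt).sum) ≤ 0 := by
      rw [← hij]
      refine (ciInf_le ⟨0, ?_⟩ SimpleGraph.Walk.nil).trans (by simp)
      rintro _ ⟨p, rfl⟩
      apply List.sum_nonneg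
      intro x hx
      rw [List.mem_map] at hx
      obtain ⟨e, he, rfl⟩ := hx
      exact hwt e (p.edges_subset_edgeSet he)
    have e1 : M⁻¹ * (M * (A + 1) + M * (A + 1)) = 2 * (A + 1) := by
      field_simp
      ring
    rw [e1] at hq
    linarith
  exact Function.cantor_injective (fun i : Set (ℝ × ℝ) => φ (f (pt i (M * (A + 1)))))
    (hφ.comp hinj)

end Pool.Agent.J4H82.Hedgehog
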